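import Pool.Agent.Lib.MP_30655b_al.GMain
import Pool.Agent.Lib.MP_30655b_al.GRees

/-! The depth of the integral closures of the powers of a monomial ideal can increase. -/

namespace Pool.Agent.Results.MP_30655b_al.AllFields

open Pool.Agent.Lib.MP_30655b_al

theorem result (K : Type*) [Field K] :
    exIdeal K ≠ ⊥ ∧ exIdeal K ≠ ⊤ ∧
      IsDepth (varIdeal K 8) (MvPolynomial (Fin 8) K ⧸ intClosure (exIdeal K ^ 2)) 1 ∧
      ∃ d : ℕ, 2 ≤ d ∧
        IsDepth (varIdeal K 8) (MvPolynomial (Fin 8) K ⧸ intClosure (exIdeal K ^ 3)) d := by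
  have e1 : exIdeal K = G.L K (G.U 1) := by
    unfold exIdeal G.L
    congr 2
    ext α
    simp only [G.mem_U, one_mul, Set.mem_ofPred_eq]
  have e2 : ∀ t, intClosure (exIdeal K ^ t) = G.L K (G.U t) := fun t => by
    rw [← G.span_intSet, ← e1, ← Ideal.span_eq (intClosure _)]
    congr 1
    ext f
    exact isIntOver_iff_range
  have hI : ∀ t, 0 < t → varIdeal K 8 • (⊤ : Submodule (G.R8 K) (G.R8 K ⧸ G.L K (G.U t))) < ⊤ := by
    intro t ht
    refine lt_top_iff_ne_top.2 fun h => ?_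
    have h1 := congrArg (Submodule.comap (G.L K (G.U t)).mkQ) h
    rw [Submodule.comap_smul_top_of_surjective _ _ (Submodule.mkQ_surjective _),
      Submodule.comap_top, Submodule.ker_mkQ, Ideal.smul_eq_mul, Ideal.mul_top] at h1
    have h2 := sup_le (G.mm_le_ker (K := K)) (G.L_le_ker ht)
    exact RingHom.ker_ne_top _ (top_le_iff.1 (h1.ge.trans h2))
  rw [e2, e2, e1]
  refine ⟨fun h => ?_, fun h => RingHom.ker_ne_top _ (top_le_iff.1 (h.ge.trans
    (G.L_le_ker Nat.one_pos))), ?_, ?_⟩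
  · have := G.monomial_mem_L (K := K) (U := G.U 1)
      (α := Finsupp.equivFunOnFinite.symm fun _ => 9) (by simp [G.mem_U])
    rw [h, Ideal.mem_bot, MvPolynomial.monomial_eq_zero] at this
    exact one_ne_zero this
  · have hm : ∀ x ∈ [(G.f1 : G.R8 K)], x ∈ varIdeal K 8 := List.forall_mem_singleton.2 G.f1_mem
    refine IsMaxReg.isDepth (hI 2 two_pos) ⟨hm, isRegular_of_weak (hI 2 two_pos) hm ?_,
      fun x hx h => G.level2_not_regular _ x G.f1_mem hx h.1⟩
    rw [RingTheory.Sequence.isWeaklyRegular_singleton_iff,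
      isSMulRegular_quotient_iff_mem_of_smul_mem]
    exact G.level2_first
  · obtain ⟨rs, h⟩ := exists_isMaxReg (hI 3 three_pos)
    have hm : ∀ x ∈ [(G.f1 : G.R8 K), G.f2], x ∈ varIdeal K 8 := by
      simpa using ⟨G.f1_mem, G.f2_mem⟩
    exact ⟨_, h.le (hI 3 three_pos) hm (isRegular_of_weak (hI 3 three_pos) hm G.level3_regular),
      h.isDepth (hI 3 three_pos)⟩

end Pool.Agent.Results.MP_30655b_al.AllFields
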