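import Pool.Agent.Lib.MP_30655b_al.TH.Main

/-! Depth at most one passes from the level `s` to the level `t` for all monomial ideals exactly
when `t = s` or `t ≥ 2 s`. -/

namespace Pool.Agent.Results.MP_30655b_al.Threshold

open Pool.Agent.Lib.MP_30655b_al

theorem result (K : Type*) [Field K] (s t : ℕ) (hs : 1 ≤ s) (ht : 1 ≤ t) :
    (∀ (r : ℕ) (I : Ideal (MvPolynomial (Fin r) K)),
      (∃ S : Set (Fin r →₀ ℕ), I = Ideal.span ((fun α => MvPolynomial.monomial α (1 : K)) '' S)) →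
      I ≠ ⊥ → I ≠ ⊤ → ∀ d e : ℕ,
        IsDepth (varIdeal K r) (MvPolynomial (Fin r) K ⧸ intClosure (I ^ s)) d →
        IsDepth (varIdeal K r) (MvPolynomial (Fin r) K ⧸ intClosure (I ^ t)) e →
        d ≤ 1 → e ≤ 1) ↔ t = s ∨ 2 * s ≤ t := by
  constructor
  · intro h
    by_contra hc
    push Not at hc
    obtain ⟨q, rfl⟩ : ∃ q, s = q + 1 := ⟨s - 1, by omega⟩
    have key : ∀ p, q + 2 ≤ p → t ≤ p → ¬ ∀ j : ℕ, t + 2 ≤ (p + 1) * j → t < (q + 1) * j :=
      fun p h1 h2 h3 => by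
        obtain ⟨S, a1, a2, d, e, a3, a4, a5, a6⟩ := TH.counter K ht h1 h2 h3
        have := h 8 _ ⟨S, rfl⟩ a1 a2 d e a3 a4 a5
        omega
    rcases lt_or_gt_of_ne hc.1 with h1 | h1
    · refine key (q + 2) le_rfl (by omega) fun j hj => ?_
      obtain _ | j := j
      · omega
      · nlinarith
    · refine key t (by omega) le_rfl fun j hj => ?_
      obtain _ | _ | j := j
      · omega
      · omega
      · nlinarith [hc.2]
  · rintro (rfl | h) r _ ⟨S, rfl⟩ h1 h2 d e hd he h3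
    · obtain ⟨rs, hrs⟩ := hd.1
      rw [← he.2 rs hrs, hd.2 rs hrs]
      exact h3
    · exact TH.persist h1 h2 hs h hd he h3

end Pool.Agent.Results.MP_30655b_al.Threshold
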